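import Pool.Agent.Work.MP_2738db_nt_C.Interface
import Pool.Agent.Work.MP_2738db_nt_Y.Interface2

/-!
Block XO1: even exponents `k`, odd `c`, large prime exponents `l`.
-/

set_option autoImplicit false

namespace Pool.Agent.Work.MP_2738db_nt_C.helper79

open Finset
open Pool.Agent.Work.MP_2738db_nt_Y (Stmt_Arg Stmt_Gfac)

/-! ### Numbers -/

theorem lowK {C U Λ l K : ℝ} (hC : 1 ≤ C) (hU : 1 ≤ U) (hΛ : 1 ≤ Λ)
    (hl : 100 * C * U ^ 4 * Λ ^ 2 < l) (hK : l * Real.log 2 ≤ 2 * K * U) :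
    34 * C * U ^ 3 * Λ ^ 2 < K := by
  have h2 : (0.69:ℝ) < Real.log 2 := by have := Real.log_two_gt_d9; linarith
  have hUpos : 0 < U := by linarith
  have hl0 : 0 < l := lt_of_le_of_lt (by positivity) hl
  by_contra hcon
  have hcon' : K ≤ 34 * C * U ^ 3 * Λ ^ 2 := not_lt.mp hcon
  have h3 : 2 * K * U ≤ 2 * (34 * C * U ^ 3 * Λ ^ 2) * U := by
    have := mul_le_mul_of_nonneg_right hcon' hUpos.le
    linarith
  have h4 : 0.69 * l ≤ l * Real.log 2 := by nlinarith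
  have h5 : 2 * (34 * C * U ^ 3 * Λ ^ 2) * U = 68 * (C * U ^ 4 * Λ ^ 2) := by ring
  have h6 : 100 * C * U ^ 4 * Λ ^ 2 = 100 * (C * U ^ 4 * Λ ^ 2) := by ring
  rw [h6] at hl
  linarith

theorem powC {C U Λ : ℝ} (hC : 1 ≤ C) (hU : 1 ≤ U) (hΛ : 1 ≤ Λ) :
    U ≤ C * U ^ 3 * Λ ^ 2 ∧ C * U ^ 2 * Λ ^ 2 ≤ C * U ^ 3 * Λ ^ 2 ∧ 1 ≤ C * U ^ 3 * Λ ^ 2 := by
  have hUpos : 0 < U := by linarith
  have hL2 : 1 ≤ Λ ^ 2 := one_le_pow₀ hΛ
  have hU2 : 1 ≤ U ^ 2 := one_le_pow₀ hU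
  have hU3 : 1 ≤ U ^ 3 := one_le_pow₀ hU
  have hCL : 1 ≤ C * Λ ^ 2 := by nlinarith
  have e1 : C * U ^ 3 * Λ ^ 2 = (C * Λ ^ 2) * U ^ 3 := by ring
  have e2 : C * U ^ 2 * Λ ^ 2 = (C * Λ ^ 2) * U ^ 2 := by ring
  have h3 : U ≤ U ^ 3 := by
    calc U = U * 1 := by ring
      _ ≤ U * U ^ 2 := mul_le_mul_of_nonneg_left hU2 hUpos.le
      _ = U ^ 3 := by ring
  have h4 : U ^ 2 ≤ U ^ 3 := by
    calc U ^ 2 = U ^ 2 * 1 := by ring
      _ ≤ U ^ 2 * U := mul_le_mul_of_nonneg_left hU (by positivity)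
      _ = U ^ 3 := by ring
  have h5 : U ^ 3 ≤ (C * Λ ^ 2) * U ^ 3 := le_mul_of_one_le_left (by positivity) hCL
  rw [e1, e2]
  exact ⟨h3.trans h5, mul_le_mul_of_nonneg_left h4 (by linarith), hU3.trans h5⟩

theorem num1 {C U Λ l K : ℝ} (hC : 1 ≤ C) (hU : 1 ≤ U) (hΛ : 1 ≤ Λ)
    (hl : 100 * C * U ^ 4 * Λ ^ 2 < l) (hK : l * Real.log 2 ≤ 2 * K * U)
    (h : K / U ≤ 1 + C * ((1 + (K * U + 1) / l) * U) * Λ ^ 2) : False := by
  have hlow := lowK hC hU hΛ hl hK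
  obtain ⟨p1, p2, p3⟩ := powC hC hU hΛ
  have hUpos : 0 < U := by linarith
  have hl0 : 0 < l := lt_of_le_of_lt (by positivity) hl
  have hK0 : 0 < K := lt_of_le_of_lt (by positivity) hlow
  have h1 : K ≤ U + C * U ^ 2 * Λ ^ 2 + C * U ^ 2 * Λ ^ 2 * ((K * U + 1) / l) := by
    have h2 := mul_le_mul_of_nonneg_right h hUpos.le
    rw [div_mul_cancel₀ _ hUpos.ne'] at h2
    have h3 : (1 + C * ((1 + (K * U + 1) / l) * U) * Λ ^ 2) * U =
      U + C * U ^ 2 * Λ ^ 2 + C * U ^ 2 * Λ ^ 2 * ((K * U + 1) / l) := by ring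
    linarith
  have h2 : C * U ^ 2 * Λ ^ 2 * ((K * U + 1) / l) ≤ (K + 1) / 100 := by
    rw [← mul_div_assoc, div_le_div_iff₀ hl0 (by norm_num)]
    have h5 : K * U + 1 ≤ (K + 1) * U ^ 2 := by
      have e1 : U ≤ U ^ 2 := by nlinarith
      have e2 : 1 ≤ U ^ 2 := by nlinarith
      have e3 : K * U ≤ K * U ^ 2 := mul_le_mul_of_nonneg_left e1 hK0.le
      linarith
    have h6 : C * U ^ 2 * Λ ^ 2 * (K * U + 1) * 100 ≤ (K + 1) * (100 * C * U ^ 4 * Λ ^ 2) := by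
      have := mul_le_mul_of_nonneg_left h5 (show 0 ≤ 100 * C * U ^ 2 * Λ ^ 2 by positivity)
      linarith
    have h7 : (K + 1) * (100 * C * U ^ 4 * Λ ^ 2) ≤ (K + 1) * l :=
      mul_le_mul_of_nonneg_left hl.le (by linarith)
    linarith
  linarith

theorem num2 {C U Λ l K : ℝ} (hC : 1 ≤ C) (hU : 1 ≤ U) (hΛ : 1 ≤ Λ)
    (hl : 100 * C * U ^ 4 * Λ ^ 2 < l) (hK : l * Real.log 2 ≤ 2 * K * U)
    (h : K / U ≤ 2 + C * (2 * K * U / l) * (9 * Λ ^ 2)) : False := by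
  have hlow := lowK hC hU hΛ hl hK
  obtain ⟨p1, p2, p3⟩ := powC hC hU hΛ
  have hUpos : 0 < U := by linarith
  have hl0 : 0 < l := lt_of_le_of_lt (by positivity) hl
  have hK0 : 0 < K := lt_of_le_of_lt (by positivity) hlow
  have h1 : K ≤ 2 * U + 18 * C * U ^ 2 * Λ ^ 2 * (K / l) := by
    have h2 := mul_le_mul_of_nonneg_right h hUpos.le
    rw [div_mul_cancel₀ _ hUpos.ne'] at h2
    have h3 : (2 + C * (2 * K * U / l) * (9 * Λ ^ 2)) * U =
      2 * U + 18 * C * U ^ 2 * Λ ^ 2 * (K / l) := by ring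
    linarith
  have h2 : 18 * C * U ^ 2 * Λ ^ 2 * (K / l) ≤ K / 2 := by
    rw [← mul_div_assoc, div_le_div_iff₀ hl0 (by norm_num)]
    have e2 : U ^ 2 ≤ U ^ 4 := by
      have : 1 ≤ U ^ 2 := one_le_pow₀ hU
      calc U ^ 2 = U ^ 2 * 1 := by ring
        _ ≤ U ^ 2 * U ^ 2 := mul_le_mul_of_nonneg_left this (by positivity)
        _ = U ^ 4 := by ring
    have h6 : 18 * C * U ^ 2 * Λ ^ 2 * K * 2 ≤ K * (100 * C * U ^ 4 * Λ ^ 2) := by
      have h8 := mul_le_mul_of_nonneg_left e2 (show 0 ≤ 36 * (C * Λ ^ 2 * K) by positivity)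
      have h9 : 0 ≤ 64 * (C * Λ ^ 2 * K) * U ^ 4 := by positivity
      linarith
    have h7 : K * (100 * C * U ^ 4 * Λ ^ 2) ≤ K * l := mul_le_mul_of_nonneg_left hl.le hK0.le
    linarith
  linarith

/-! ### Structure -/

theorem minus_struct {a b A l : ℕ} (ha : ¬ 2 ∣ a) (hb : ¬ 2 ∣ b) (hab : Nat.Coprime a b)
    (hlt : b < a) (h : a ^ 2 = b ^ 2 + 2 * A ^ l) : ∃ h : ℕ, h ^ l + b = a ∨ h ^ l = a + b := by
  obtain ⟨p, hp⟩ : ∃ p, a = b + 2 * p := by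
    refine ⟨(a - b) / 2, ?_⟩
    omega
  subst hp
  have hprod : 2 * p * (b + p) = A ^ l := by
    have h1 : (b + 2 * p) ^ 2 = b ^ 2 + 2 * (2 * p * (b + p)) := by ring
    omega
  have hc0 : Nat.Coprime (2 * p) b := Nat.coprime_self_add_left.mp hab
  have hcp : Nat.Coprime p b := Nat.Coprime.coprime_dvd_left (Dvd.intro_left 2 rfl) hc0
  have hpq : Nat.Coprime p (b + p) := Nat.coprime_add_self_right.mpr hcp
  rcases Nat.even_or_odd p with hev | hodd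
  · have h2 : Nat.Coprime 2 (b + p) := by
      rw [Nat.coprime_two_left]
      have hbo : Odd b := Nat.not_even_iff_odd.mp (fun h => hb h.two_dvd)
      exact hbo.add_even hev
    have h3 : Nat.Coprime (2 * p) (b + p) := Nat.Coprime.mul_left h2 hpq
    obtain ⟨d, hd⟩ : ∃ d, 2 * p = d ^ l :=
      exists_eq_pow_of_mul_eq_pow (Nat.isUnit_iff.mpr h3) hprod
    exact ⟨d, Or.inl (by rw [← hd]; ring)⟩
  · have h2 : Nat.Coprime 2 p := Nat.coprime_two_left.mpr hodd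
    have h3 : Nat.Coprime (2 * (b + p)) p := Nat.Coprime.mul_left h2 hpq.symm
    obtain ⟨d, hd⟩ : ∃ d, 2 * (b + p) = d ^ l :=
      exists_eq_pow_of_mul_eq_pow (c := A) (b := p) (Nat.isUnit_iff.mpr h3) (by rw [← hprod]; ring)
    exact ⟨d, Or.inr (by rw [← hd]; ring)⟩

theorem im_four (z : GaussianInt) :
    (z ^ 4).im = 4 * (z.re * z.im) * (z.re ^ 2 - z.im ^ 2) := by
  have h : z ^ 4 = (z * z) * (z * z) := by ring
  rw [h, Zsqrtd.im_mul, Zsqrtd.re_mul, Zsqrtd.im_mul]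
  ring

theorem abs_im_four (z : GaussianInt) (X Y : ℤ) (hY : 0 ≤ Y) (hXY : Y ≤ X)
    (h : (X = |z.re| ∧ Y = |z.im|) ∨ (X = |z.im| ∧ Y = |z.re|)) :
    |(z ^ 4).im| = 4 * (X * Y) * (X ^ 2 - Y ^ 2) := by
  rw [im_four, abs_mul, abs_mul, abs_mul]
  have h0 : 0 ≤ X ^ 2 - Y ^ 2 := by nlinarith
  rcases h with ⟨h1, h2⟩ | ⟨h1, h2⟩
  · have e : |z.re ^ 2 - z.im ^ 2| = X ^ 2 - Y ^ 2 := by
      rw [← sq_abs z.re, ← sq_abs z.im, ← h1, ← h2, abs_of_nonneg h0]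
    rw [e, ← h1, ← h2]
    norm_num
  · have e : |z.re ^ 2 - z.im ^ 2| = X ^ 2 - Y ^ 2 := by
      rw [abs_sub_comm, ← sq_abs z.re, ← sq_abs z.im, ← h1, ← h2, abs_of_nonneg h0]
    rw [e, ← h1, ← h2, show |(4 : ℤ)| = 4 from by norm_num]
    ring

/-! ### The plus sign -/

theorem plus_case {C : ℝ} (hC : 1 ≤ C)
    (hArg : ∀ (u v : ℤ) (k : ℕ), IsCoprime u v → u ≠ 0 → v ≠ 0 → Odd (u ^ 2 + v ^ 2) →
      1 ≤ k →
      Real.exp (k / 2 * Real.log ((u : ℝ) ^ 2 + (v : ℝ) ^ 2) -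
          C * Real.log ((u : ℝ) ^ 2 + (v : ℝ) ^ 2) * (1 + Real.log k) ^ 2) ≤
        |((((⟨u, v⟩ : GaussianInt) ^ k).im : ℤ) : ℝ)|)
    (hG : Stmt_Gfac) {a b A l : ℕ} (hb1 : 1 ≤ b) (hba : b < a) (ha : ¬ 2 ∣ a) (hb : ¬ 2 ∣ b)
    (hab : Nat.Coprime a b) (hA : 2 ≤ A) (hl : 2 ≤ l) (h : a ^ 2 + b ^ 2 = 2 * A ^ l) :
    Real.log a - Real.log b ≤
      2 * Real.log 2 + C * Real.log A * (1 + Real.log ((4 * l : ℕ) : ℝ)) ^ 2 := by
  obtain ⟨Y, hY⟩ : ∃ Y, a = b + 2 * Y := by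
    refine ⟨(a - b) / 2, ?_⟩
    omega
  subst hY
  have hY1 : 1 ≤ Y := by omega
  have hc0 : Nat.Coprime (2 * Y) b := Nat.coprime_self_add_left.mp hab
  have hcp : Nat.Coprime Y b := Nat.Coprime.coprime_dvd_left (Dvd.intro_left 2 rfl) hc0
  have hXYc : Nat.Coprime (b + Y) Y := Nat.coprime_add_self_left.mpr hcp.symm
  have hsum : (b + Y) ^ 2 + Y ^ 2 = A ^ l := by
    have h1 : (b + 2 * Y) ^ 2 + b ^ 2 = 2 * ((b + Y) ^ 2 + Y ^ 2) := by ring
    omega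
  obtain ⟨x, y, hxy, hx0, hy0, hodd, hnorm, hcase⟩ :=
    hG (b + Y) Y A l hXYc (by omega) hY1 hl hsum
  have hnormR : (x : ℝ) ^ 2 + (y : ℝ) ^ 2 = (A : ℝ) := by exact_mod_cast hnorm
  have h4 := hArg x y (4 * l) hxy hx0 hy0 hodd (by omega)
  rw [hnormR] at h4
  have him : |((⟨x, y⟩ : GaussianInt) ^ (4 * l)).im| =
      4 * (((b + Y : ℕ) : ℤ) * (Y : ℤ)) * (((b + Y : ℕ) : ℤ) ^ 2 - (Y : ℤ) ^ 2) := by
    rw [pow_mul']
    exact abs_im_four _ _ _ (by positivity) (by push_cast; linarith [Int.natCast_nonneg b]) hcase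
  have himR : |((((⟨x, y⟩ : GaussianInt) ^ (4 * l)).im : ℤ) : ℝ)| =
      4 * (((b : ℝ) + Y) * Y) * (((b : ℝ) + Y) ^ 2 - (Y : ℝ) ^ 2) := by
    rw [← Int.cast_abs, him]
    push_cast
    ring
  rw [himR] at h4
  have hbR : (1 : ℝ) ≤ b := by exact_mod_cast hb1
  have hYR : (1 : ℝ) ≤ Y := by exact_mod_cast hY1
  have hAR : (2 : ℝ) ≤ A := by exact_mod_cast hA
  have hsumR : ((b : ℝ) + Y) ^ 2 + (Y : ℝ) ^ 2 = (A : ℝ) ^ l := by exact_mod_cast hsum
  have hAl : (0 : ℝ) < (A : ℝ) ^ l := by positivity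
  obtain ⟨a', ha'⟩ : ∃ a' : ℝ, a' = (b : ℝ) + 2 * Y := ⟨_, rfl⟩
  have hcast : (((b + 2 * Y : ℕ) : ℕ) : ℝ) = a' := by rw [ha']; push_cast; ring
  rw [hcast]
  have ha'0 : 0 < a' := by rw [ha']; linarith
  have hprod : ((b : ℝ) + Y) ^ 2 - (Y : ℝ) ^ 2 = a' * b := by rw [ha']; ring
  have hXY : 4 * (((b : ℝ) + Y) * Y) ≤ 2 * (A : ℝ) ^ l := by
    rw [← hsumR]
    nlinarith [sq_nonneg ((b : ℝ) + Y - Y)]
  have hab0 : 0 < a' * b := mul_pos ha'0 (by linarith)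
  have h5 : Real.exp (((4 * l : ℕ) : ℝ) / 2 * Real.log A -
      C * Real.log A * (1 + Real.log ((4 * l : ℕ) : ℝ)) ^ 2) ≤ 2 * (A : ℝ) ^ l * (a' * b) := by
    refine h4.trans ?_
    rw [hprod]
    exact mul_le_mul_of_nonneg_right hXY hab0.le
  have h6 := Real.log_le_log (Real.exp_pos _) h5
  rw [Real.log_exp, Real.log_mul (by positivity) hab0.ne', Real.log_mul (by norm_num) hAl.ne',
    Real.log_pow, Real.log_mul ha'0.ne' (by linarith)] at h6
  have h7 : a' ^ 2 ≤ 2 * (A : ℝ) ^ l := by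
    rw [← hsumR, ha']
    nlinarith [sq_nonneg (b : ℝ)]
  have h8 := Real.log_le_log (by positivity) h7
  rw [Real.log_pow, Real.log_mul (by norm_num) hAl.ne', Real.log_pow] at h8
  have h9 : ((4 * l : ℕ) : ℝ) / 2 * Real.log A = 2 * (l * Real.log A) := by push_cast; ring
  rw [h9] at h6
  push_cast at h8
  linarith

/-! ### The minus sign -/

theorem log_near {x : ℝ} (h0 : 0 ≤ x) (h1 : x ≤ 1 / 2) :
    |Real.log (1 + x)| ≤ 2 * x ∧ |Real.log (1 - x)| ≤ 2 * x := by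
  constructor
  · have h2 : 0 ≤ Real.log (1 + x) := Real.log_nonneg (by linarith)
    have h3 := Real.log_le_sub_one_of_pos (by linarith : 0 < 1 + x)
    rw [abs_of_nonneg h2]
    linarith
  · have h2 : Real.log (1 - x) ≤ 0 := Real.log_nonpos (by linarith) (by linarith)
    have h3 : -(2 * x) ≤ Real.log (1 - x) := by
      have h4 := Real.one_sub_inv_le_log_of_pos (by linarith : 0 < 1 - x)
      have h5 : -(2 * x) ≤ 1 - (1 - x)⁻¹ := by
        have h6 : (1 - x)⁻¹ ≤ 1 + 2 * x := by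
          rw [inv_le_iff_one_le_mul₀ (by linarith)]
          nlinarith
        linarith
      linarith
    rw [abs_of_nonpos h2]
    linarith

theorem minus_log {a b h l : ℕ} (hb1 : 1 ≤ b) (hab : 2 * b ≤ a) (hh : h ^ l + b = a ∨ h ^ l = a + b)
    (hl : 1 ≤ l) :
    1 ≤ h ∧ h ^ l ≠ a ∧ (l : ℝ) * Real.log h ≤ 1 + Real.log a ∧
      |(l : ℝ) * Real.log h - Real.log a| ≤ 2 * ((b : ℝ) / a) := by
  have ha0 : (0 : ℝ) < a := by exact_mod_cast (by omega : 0 < a)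
  have hb0 : (0 : ℝ) < b := by exact_mod_cast hb1
  have habR : 2 * (b : ℝ) ≤ a := by exact_mod_cast hab
  have hρ0 : 0 ≤ (b : ℝ) / a := (div_pos hb0 ha0).le
  have hρ1 : (b : ℝ) / a ≤ 1 / 2 := by
    rw [div_le_div_iff₀ ha0 (by norm_num)]
    linarith
  obtain ⟨n1, n2⟩ := log_near hρ0 hρ1
  have hh1 : 1 ≤ h := by
    rcases Nat.eq_zero_or_pos h with h0 | h0
    · exfalso
      rw [h0, zero_pow (by omega)] at hh
      omega
    · exact h0
  have hne : h ^ l ≠ a := by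
    rcases hh with h1 | h1 <;> omega
  have hpow : (l : ℝ) * Real.log h = Real.log ((h : ℝ) ^ l) := by rw [Real.log_pow]
  have hkey : |(l : ℝ) * Real.log h - Real.log a| ≤ 2 * ((b : ℝ) / a) := by
    rw [hpow]
    rcases hh with h1 | h1
    · have h2 : (h : ℝ) ^ l = a * (1 - b / a) := by
        have h3 : (h : ℝ) ^ l + b = a := by exact_mod_cast h1
        field_simp
        linarith
      rw [h2, Real.log_mul ha0.ne' (by linarith), add_sub_cancel_left]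
      exact n2
    · have h2 : (h : ℝ) ^ l = a * (1 + b / a) := by
        have h3 : (h : ℝ) ^ l = a + b := by exact_mod_cast h1
        field_simp
        linarith
      rw [h2, Real.log_mul ha0.ne' (by linarith), add_sub_cancel_left]
      exact n1
  refine ⟨hh1, hne, ?_, hkey⟩
  have := (abs_le.mp hkey).2
  linarith

/-! ### The theorem -/

theorem xo1 (hT : Stmt_Tlc) (hArg : Stmt_Arg) (hG : Stmt_Gfac) : Stmt_Xo1 := by
  obtain ⟨C₁, hC₁, hT⟩ := hT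
  obtain ⟨C₂, hC₂, hArg⟩ := hArg
  refine ⟨100 * (C₁ + C₂), by linarith, ?_⟩
  intro u v k l A U hu huv hcop hu2 hv2 hk hk2 hlp hA hU hvU hsep hl heq
  obtain ⟨K, rfl⟩ := hk2
  have hK1 : 1 ≤ K := by omega
  have hl2 : 2 ≤ l := hlp.two_le
  -- real data
  have hKR : (1 : ℝ) ≤ K := by exact_mod_cast hK1
  have hl2R : (2 : ℝ) ≤ l := by exact_mod_cast hl2
  have hl0 : (0 : ℝ) < l := by linarith
  have hUpos : 0 < U := by linarith
  have hu0 : (0 : ℝ) < u := by exact_mod_cast hu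
  have hv0 : (0 : ℝ) < v := by exact_mod_cast (by omega : 0 < v)
  have hAR : (2 : ℝ) ≤ A := by exact_mod_cast hA
  have hΛ : (1 : ℝ) ≤ 1 + Real.log l := by
    have := Real.log_nonneg (by linarith : (1 : ℝ) ≤ l)
    linarith
  obtain ⟨Λ, hΛd⟩ : ∃ Λ, Λ = 1 + Real.log l := ⟨_, rfl⟩
  rw [← hΛd] at hl hΛ
  have hq : 0 ≤ U ^ 4 * Λ ^ 2 := by positivity
  have hl₁ : 100 * C₁ * U ^ 4 * Λ ^ 2 < l := by
    have : 100 * (C₁ + C₂) * U ^ 4 * Λ ^ 2 =
      100 * C₁ * U ^ 4 * Λ ^ 2 + 100 * C₂ * (U ^ 4 * Λ ^ 2) := by ring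
    have h2 : 0 ≤ 100 * C₂ * (U ^ 4 * Λ ^ 2) := by positivity
    linarith
  have hl₂ : 100 * C₂ * U ^ 4 * Λ ^ 2 < l := by
    have : 100 * (C₁ + C₂) * U ^ 4 * Λ ^ 2 =
      100 * C₂ * U ^ 4 * Λ ^ 2 + 100 * C₁ * (U ^ 4 * Λ ^ 2) := by ring
    have h2 : 0 ≤ 100 * C₁ * (U ^ 4 * Λ ^ 2) := by positivity
    linarith
  -- powers
  obtain ⟨a, ha⟩ : ∃ a, a = v ^ K := ⟨_, rfl⟩
  obtain ⟨b, hb⟩ : ∃ b, b = u ^ K := ⟨_, rfl⟩
  have ha2 : ¬ 2 ∣ a := by rw [ha]; exact fun h => hv2 (Nat.prime_two.dvd_of_dvd_pow h)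
  have hb2 : ¬ 2 ∣ b := by rw [hb]; exact fun h => hu2 (Nat.prime_two.dvd_of_dvd_pow h)
  have hab : Nat.Coprime a b := by rw [ha, hb]; exact Nat.Coprime.pow _ _ hcop.symm
  have hba : b < a := by rw [ha, hb]; exact Nat.pow_lt_pow_left huv (by omega)
  have hb1 : 1 ≤ b := by rw [hb]; exact Nat.one_le_pow _ _ (by omega)
  have haR : Real.log a = K * Real.log v := by rw [ha]; push_cast; rw [Real.log_pow]
  have hbR : Real.log b = K * Real.log u := by rw [hb]; push_cast; rw [Real.log_pow]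
  have ha0 : (0 : ℝ) < a := by exact_mod_cast (by omega : 0 < a)
  have hb0 : (0 : ℝ) < b := by exact_mod_cast hb1
  have hsep' : (K : ℝ) / U ≤ Real.log a - Real.log b := by
    rw [haR, hbR, div_le_iff₀ hUpos]
    have := mul_le_mul_of_nonneg_left hsep (by linarith : (0 : ℝ) ≤ K)
    linarith
  have hEq : a ^ 2 + b ^ 2 = 2 * A ^ l ∨ a ^ 2 = b ^ 2 + 2 * A ^ l := by
    rw [ha, hb, ← pow_mul, ← pow_mul, mul_comm K 2]
    exact heq
  have hAl : A ^ l ≤ a ^ 2 := by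
    have : b ^ 2 ≤ a ^ 2 := Nat.pow_le_pow_left hba.le 2
    rcases hEq with h | h <;> omega
  have hlogA : (l : ℝ) * Real.log A ≤ 2 * (K * U) := by
    have h1 : ((A : ℝ)) ^ l ≤ (a : ℝ) ^ 2 := by exact_mod_cast hAl
    have h2 := Real.log_le_log (by positivity) h1
    rw [Real.log_pow, Real.log_pow, haR] at h2
    have h3 : (K : ℝ) * Real.log v ≤ K * U := mul_le_mul_of_nonneg_left hvU (by linarith)
    push_cast at h2
    linarith
  have hKl : (l : ℝ) * Real.log 2 ≤ 2 * K * U := by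
    have h1 : Real.log 2 ≤ Real.log A := Real.log_le_log (by norm_num) hAR
    have h2 := mul_le_mul_of_nonneg_left h1 hl0.le
    linarith
  rcases hEq with hp | hm
  · -- plus
    have h1 := plus_case hC₂ hArg hG hb1 hba ha2 hb2 hab hA hl2 hp
    have hlogA0 : 0 ≤ Real.log A := Real.log_nonneg (by linarith)
    have h2 : Real.log A ≤ 2 * K * U / l := by
      rw [le_div_iff₀ hl0]
      linarith
    have h3 : 1 + Real.log ((4 * l : ℕ) : ℝ) ≤ 3 * Λ := by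
      have e1 : Real.log ((4 * l : ℕ) : ℝ) = Real.log 4 + Real.log l := by
        push_cast
        rw [Real.log_mul (by norm_num) hl0.ne']
      have e2 : Real.log 4 = 2 * Real.log 2 := by
        rw [show (4 : ℝ) = 2 ^ 2 by norm_num, Real.log_pow]
        norm_num
      have e3 := Real.log_two_lt_d9
      have e4 : 0 ≤ Real.log l := Real.log_nonneg (by linarith)
      rw [e1, e2, hΛd]
      linarith
    have h30 : 0 ≤ 1 + Real.log ((4 * l : ℕ) : ℝ) := by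
      have : 0 ≤ Real.log ((4 * l : ℕ) : ℝ) := Real.log_natCast_nonneg _
      linarith
    have h4 : (1 + Real.log ((4 * l : ℕ) : ℝ)) ^ 2 ≤ 9 * Λ ^ 2 := by
      calc (1 + Real.log ((4 * l : ℕ) : ℝ)) ^ 2 ≤ (3 * Λ) ^ 2 := pow_le_pow_left₀ h30 h3 2
        _ = 9 * Λ ^ 2 := by ring
    have h5 : C₂ * Real.log A * (1 + Real.log ((4 * l : ℕ) : ℝ)) ^ 2 ≤
        C₂ * (2 * K * U / l) * (9 * Λ ^ 2) := by
      apply mul_le_mul
      · exact mul_le_mul_of_nonneg_left h2 (by linarith)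
      · exact h4
      · positivity
      · positivity
    have e3 := Real.log_two_lt_d9
    exact num2 hC₂ hU hΛ hl₂ hKl (by linarith)
  · -- minus
    obtain ⟨h, hh⟩ := minus_struct ha2 hb2 hab hba hm
    have hlow := lowK hC₁ hU hΛ hl₁ hKl
    obtain ⟨p1, p2, p3⟩ := powC hC₁ hU hΛ
    have hKU1 : 1 ≤ (K : ℝ) / U := by
      rw [le_div_iff₀ hUpos]
      linarith
    -- b / a ≤ exp (- K / U)
    have hρ : (b : ℝ) / a ≤ Real.exp (-((K : ℝ) / U)) := by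
      rw [← Real.log_le_iff_le_exp (div_pos hb0 ha0), Real.log_div hb0.ne' ha0.ne']
      linarith
    have hab2 : 2 * b ≤ a := by
      have h1 : Real.exp (-((K : ℝ) / U)) ≤ 1 / 2 := by
        have h2 : Real.exp (-((K : ℝ) / U)) ≤ Real.exp (-1) := Real.exp_le_exp.mpr (by linarith)
        have h3 : Real.exp (-1) ≤ 1 / 2 := by
          rw [Real.exp_neg, ← one_div]
          apply one_div_le_one_div_of_le (by norm_num)
          have := Real.add_one_le_exp (1 : ℝ)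
          linarith
        linarith
      have h2 : (b : ℝ) / a ≤ 1 / 2 := hρ.trans h1
      rw [div_le_div_iff₀ ha0 (by norm_num)] at h2
      have h3 : 2 * (b : ℝ) ≤ a := by linarith
      exact_mod_cast h3
    obtain ⟨hh1, hne, hlh, hab3⟩ := minus_log hb1 hab2 hh (by omega : 1 ≤ l)
    have hKU : (K : ℝ) * Real.log v ≤ K * U := mul_le_mul_of_nonneg_left hvU (by linarith)
    have hA' : (1 : ℝ) ≤ 1 + (K * U + 1) / l := by
      have : 0 ≤ ((K : ℝ) * U + 1) / l := by positivity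
      linarith
    have hlogh : Real.log h ≤ 1 + (K * U + 1) / l := by
      have h1 : Real.log h ≤ (K * U + 1) / l := by
        rw [le_div_iff₀ hl0]
        rw [haR] at hlh
        linarith
      linarith
    have hKle : (K : ℝ) ≤ (1 + (K * U + 1) / l) * l := by
      rw [add_mul, div_mul_cancel₀ _ hl0.ne']
      have : (K : ℝ) ≤ K * U := le_mul_of_one_le_right (by linarith) hU
      linarith
    have hCl : C₁ * U * (1 + Real.log l) ≤ l := by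
      rw [← hΛd]
      have e1 : C₁ * U * Λ ≤ C₁ * U ^ 4 * Λ ^ 2 := by
        have e2 : U ≤ U ^ 4 := le_self_pow₀ hU (by norm_num)
        have e3 : Λ ≤ Λ ^ 2 := le_self_pow₀ hΛ (by norm_num)
        calc C₁ * U * Λ ≤ C₁ * U ^ 4 * Λ :=
              mul_le_mul_of_nonneg_right (mul_le_mul_of_nonneg_left e2 (by linarith)) (by linarith)
          _ ≤ C₁ * U ^ 4 * Λ ^ 2 := mul_le_mul_of_nonneg_left e3 (by positivity)
      have e4 : 0 ≤ C₁ * U ^ 4 * Λ ^ 2 := by positivity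
      linarith
    have hne' : h ^ l ≠ 1 ^ l * v ^ K := by
      rw [one_pow, one_mul, ← ha]
      exact hne
    have hfin := hT h 1 v K l (1 + (K * U + 1) / l) U hlp hh1 le_rfl (by omega) hK1 hA' hU hlogh
      (by rw [Nat.cast_one, Real.log_one]; linarith) hvU hKle hCl hne'
    rw [Nat.cast_one, Real.log_one, sub_zero, ← haR, ← hΛd] at hfin
    have h9 : Real.exp (-(C₁ * ((1 + (K * U + 1) / l) * U) * Λ ^ 2)) ≤
        2 * Real.exp (-((K : ℝ) / U)) := by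
      refine hfin.trans (hab3.trans ?_)
      linarith
    have h10 := Real.log_le_log (Real.exp_pos _) h9
    rw [Real.log_exp, Real.log_mul (by norm_num) (Real.exp_pos _).ne', Real.log_exp] at h10
    have e3 := Real.log_two_lt_d9
    exact num1 hC₁ hU hΛ hl₁ hKl (by linarith)

end Pool.Agent.Work.MP_2738db_nt_C.helper79
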